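import Pool.Agent.Helper52.Wq2.Stars

/-!
# Project NW, packet CRX, part A: the star times line is a minor of pairs of lines with swaps
-/

set_option autoImplicit false

namespace Pool.Agent.Helper4.NW

open Pool.Agent.Helper52.Wq2

/-- `p` pairs of lines; consecutive levels of a pair are completely joined; neighbouring pairs are
joined by horizontal edges. -/
def Wg (p : ℕ) : SimpleGraph (ℤ × Fin p × Bool) :=
  SimpleGraph.fromRel (fun u v => (u.2.1 = v.2.1 ∧ |u.1 - v.1| ≤ 1) ∨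
    (u.1 = v.1 ∧ (v.2.1 : ℕ) = u.2.1 + 1 ∧ u.2.2 = true ∧ v.2.2 = false))

theorem wg_pair {p : ℕ} {x y : ℤ} {j : Fin p} {b c : Bool} (h : |x - y| ≤ 1)
    (hne : x ≠ y ∨ b ≠ c) : (Wg p).Adj (x, j, b) (y, j, c) := by
  unfold Wg
  rw [SimpleGraph.fromRel_adj]
  refine ⟨?_, Or.inl (Or.inl ⟨rfl, h⟩)⟩
  intro e
  rcases hne with h' | h'
  · exact h' (congrArg Prod.fst e)
  · exact h' (congrArg (fun z => z.2.2) e)

theorem wg_hor {p : ℕ} {x : ℤ} {i j : Fin p} (h : (j : ℕ) = i + 1) :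
    (Wg p).Adj (x, i, true) (x, j, false) := by
  unfold Wg
  rw [SimpleGraph.fromRel_adj]
  refine ⟨?_, Or.inl (Or.inr ⟨rfl, h, rfl, rfl⟩)⟩
  intro e
  have := congrArg (fun z => z.2.2) e
  simp at this

/-- Connected sets with a rank function. -/
theorem conn_rank {V : Type*} {G : SimpleGraph V} (s : Set V) (ρ : V → ℤ) (hne : s.Nonempty)
    (hadj : ∀ u ∈ s, ∀ v ∈ s, u ≠ v → |ρ u - ρ v| ≤ 1 → G.Adj u v)
    (hfull : ∀ u ∈ s, ∀ v ∈ s, ∀ x, ρ u ≤ x → x ≤ ρ v → ∃ w ∈ s, ρ w = x) : Conn G s := by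
  refine ⟨hne, ?_⟩
  intro A hA hAne hcl
  obtain ⟨a, ha⟩ := hAne
  have key : ∀ n : ℕ, ∀ v ∈ s, (ρ v - ρ a).natAbs = n → v ∈ A := by
    intro n
    induction n with
    | zero =>
      intro v hv h
      by_cases e : a = v
      · exact e ▸ ha
      · refine hcl a ha v hv (hadj a (hA ha) v hv e ?_)
        rw [abs_le]; omega
    | succ n ih =>
      intro v hv h
      rcases le_total (ρ a) (ρ v) with h' | h'
      · obtain ⟨w, hw, hwx⟩ := hfull a (hA ha) v hv (ρ v - 1) (by omega) (by omega)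
        refine hcl w (ih w hw (by omega)) v hv (hadj w hw v hv ?_ ?_)
        · intro e; rw [e] at hwx; omega
        · rw [abs_le]; omega
      · obtain ⟨w, hw, hwx⟩ := hfull v hv a (hA ha) (ρ v + 1) (by omega) (by omega)
        refine hcl w (ih w hw (by omega)) v hv (hadj w hw v hv ?_ ?_)
        · intro e; rw [e] at hwx; omega
        · rw [abs_le]; omega
  intro v hv
  exact key _ v hv rfl

/-- The centre, local times. -/
def cc (p : ℕ) (t : ℤ) (j : ℕ) (b : Bool) : Prop :=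
  (t = j ∧ b = false) ∨ (t = j + 1 ∧ b = true) ∨ (t = 2 * p - 1 - j ∧ b = true) ∨
    (t = 2 * p - j ∧ b = false ∧ 1 ≤ j)

theorem free (p : ℕ) (t : ℤ) (j : ℕ) : ∃ b, ¬ cc p t j b := by
  by_cases h : cc p t j false
  · refine ⟨true, ?_⟩
    unfold cc at *
    rcases h with h | h | h | h
    · rintro (h' | h' | h' | h')
      · simp at h'
      · omega
      · omega
      · simp at h'
    · simp at h
    · simp at h
    · rintro (h' | h' | h' | h')
      · simp at h'
      · omega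
      · omega
      · simp at h'
  · exact ⟨false, h⟩

/-- The model. -/
def mdl (p : ℕ) : ℤ × Option (Fin p) → Set (ℤ × Fin p × Bool)
  | (k, none) => {v | ∃ t : ℤ, 0 ≤ t ∧ t < 2 * p ∧ v.1 = 2 * p * k + t ∧ cc p t v.2.1 v.2.2}
  | (k, some i) => {v | v.2.1 = i ∧ ∃ t : ℤ, 0 ≤ t ∧ t < 2 * p ∧ v.1 = 2 * p * k + t ∧
      ¬ cc p t v.2.1 v.2.2}

theorem mdl_none {p : ℕ} (k t : ℤ) (j : Fin p) (b : Bool) (h0 : 0 ≤ t) (h1 : t < 2 * p)
    (h : cc p t j b) : ((2 * p * k + t, j, b) : ℤ × Fin p × Bool) ∈ mdl p (k, none) :=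
  ⟨t, h0, h1, rfl, h⟩

theorem uniq {p : ℕ} {k k' t t' : ℤ} (h0 : 0 ≤ t) (h1 : t < 2 * p) (h0' : 0 ≤ t')
    (h1' : t' < 2 * p) (h : 2 * p * k + t = 2 * p * k' + t') : k = k' ∧ t = t' := by
  have hp : (0 : ℤ) < 2 * p := by omega
  have e : (2 * p * k + t) / (2 * p) = (2 * p * k' + t') / (2 * p) := by rw [h]
  rw [Int.add_comm, Int.add_mul_ediv_left _ _ hp.ne', Int.add_comm (2 * (p : ℤ) * k'),
    Int.add_mul_ediv_left _ _ hp.ne', Int.ediv_eq_zero_of_lt h0 h1,
    Int.ediv_eq_zero_of_lt h0' h1'] at e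
  have e' : k = k' := by simpa using e
  subst e'
  exact ⟨rfl, by omega⟩

theorem conn_none {p : ℕ} (hp : 0 < p) (k : ℤ) : Conn (Wg p) (mdl p (k, none)) := by
  set K : ℤ := 2 * p * k with hK
  have mem : ∀ (t : ℤ) (j : Fin p) (b : Bool), 0 ≤ t → t < 2 * p → cc p t j b →
      ((K + t, j, b) : ℤ × Fin p × Bool) ∈ mdl p (k, none) := fun t j b h0 h1 h =>
    mdl_none k t j b h0 h1 h
  have m0 : ((K + 0, ⟨0, hp⟩, false) : ℤ × Fin p × Bool) ∈ mdl p (k, none) :=
    mem 0 ⟨0, hp⟩ false le_rfl (by omega) (Or.inl ⟨by simp, rfl⟩)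
  have h1 : ∀ j (hj : j < p),
      Relation.ReflTransGen (fun a b => (Wg p).Adj a b ∧ b ∈ mdl p (k, none))
        (K + 0, ⟨0, hp⟩, false) (K + j, ⟨j, hj⟩, false) ∧
      Relation.ReflTransGen (fun a b => (Wg p).Adj a b ∧ b ∈ mdl p (k, none))
        (K + 0, ⟨0, hp⟩, false) (K + (j + 1), ⟨j, hj⟩, true) := by
    intro j
    induction j with
    | zero =>
      intro hj
      refine ⟨Relation.ReflTransGen.refl, Relation.ReflTransGen.single ⟨?_, ?_⟩⟩
      · exact wg_pair (by rw [abs_le]; constructor <;> omega) (Or.inr (by simp))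
      · exact mem _ _ _ (by omega) (by omega) (Or.inr (Or.inl ⟨by simp, rfl⟩))
    | succ j ih =>
      intro hj
      have a1 : Relation.ReflTransGen (fun a b => (Wg p).Adj a b ∧ b ∈ mdl p (k, none))
          (K + 0, ⟨0, hp⟩, false) (K + ((j + 1 : ℕ) : ℤ), ⟨j + 1, hj⟩, false) := by
        refine (ih (by omega)).2.tail ⟨?_, ?_⟩
        · have := wg_hor (p := p) (x := K + ((j : ℤ) + 1)) (i := ⟨j, by omega⟩)
            (j := ⟨j + 1, hj⟩) rfl
          push_cast
          exact this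
        · exact mem _ _ _ (by omega) (by push_cast; omega) (Or.inl ⟨rfl, rfl⟩)
      refine ⟨a1, a1.tail ⟨?_, ?_⟩⟩
      · exact wg_pair (by rw [abs_le]; constructor <;> omega) (Or.inr (by simp))
      · exact mem _ _ _ (by omega) (by push_cast; omega) (Or.inr (Or.inl ⟨rfl, rfl⟩))
  have h2 : ∀ i (hi : i < p),
      Relation.ReflTransGen (fun a b => (Wg p).Adj a b ∧ b ∈ mdl p (k, none))
        (K + 0, ⟨0, hp⟩, false) (K + (p + i), ⟨p - 1 - i, by omega⟩, true) ∧
      (i + 1 < p → Relation.ReflTransGen (fun a b => (Wg p).Adj a b ∧ b ∈ mdl p (k, none))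
        (K + 0, ⟨0, hp⟩, false) (K + (p + i + 1), ⟨p - 1 - i, by omega⟩, false)) := by
    intro i
    have step : ∀ i (hi : i < p),
        Relation.ReflTransGen (fun a b => (Wg p).Adj a b ∧ b ∈ mdl p (k, none))
          (K + 0, ⟨0, hp⟩, false) (K + (p + i), ⟨p - 1 - i, by omega⟩, true) →
        (i + 1 < p → Relation.ReflTransGen (fun a b => (Wg p).Adj a b ∧ b ∈ mdl p (k, none))
          (K + 0, ⟨0, hp⟩, false) (K + (p + i + 1), ⟨p - 1 - i, by omega⟩, false)) := by
      intro i hi h hi'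
      refine h.tail ⟨?_, ?_⟩
      · exact wg_pair (by rw [abs_le]; constructor <;> omega) (Or.inr (by simp))
      · exact mem _ _ _ (by omega) (by omega)
          (Or.inr (Or.inr (Or.inr ⟨by push_cast; omega, rfl, by
            show 1 ≤ p - 1 - i
            omega⟩)))
    induction i with
    | zero =>
      intro hi
      have a := (h1 (p - 1) (by omega)).2
      have e : (((p - 1 : ℕ) : ℤ) + 1) = p + (0 : ℕ) := by omega
      rw [e] at a
      exact ⟨a, step 0 hi a⟩
    | succ i ih =>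
      intro hi
      have b := (ih (by omega)).2 hi
      have a : Relation.ReflTransGen (fun a b => (Wg p).Adj a b ∧ b ∈ mdl p (k, none))
          (K + 0, ⟨0, hp⟩, false) (K + (p + (i + 1 : ℕ)), ⟨p - 1 - (i + 1), by omega⟩, true) := by
        refine b.tail ⟨?_, ?_⟩
        · have := wg_hor (p := p) (x := K + (p + (i + 1 : ℕ))) (i := ⟨p - 1 - (i + 1), by omega⟩)
            (j := ⟨p - 1 - i, by omega⟩) (by show p - 1 - i = p - 1 - (i + 1) + 1; omega)
          have e : K + ((p : ℤ) + (i : ℤ) + 1) = K + (p + (i + 1 : ℕ)) := by push_cast; ring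
          rw [e]
          exact this.symm
        · exact mem _ _ _ (by omega) (by push_cast; omega)
            (Or.inr (Or.inr (Or.inl ⟨by
              show ((p : ℤ) + (i + 1 : ℕ)) = 2 * p - 1 - ((p - 1 - (i + 1) : ℕ) : ℤ)
              omega, rfl⟩)))
      exact ⟨a, step (i + 1) hi a⟩
  refine conn_of_root m0 ?_
  rintro ⟨x, j, b⟩ ⟨t, h0, ht, hx, hc⟩
  have hx' : x = K + t := hx
  subst hx'
  rcases hc with ⟨e, e'⟩ | ⟨e, e'⟩ | ⟨e, e'⟩ | ⟨e, e', e''⟩
  · have e2 : t = ((j : ℕ) : ℤ) := e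
    have e3 : b = false := e'
    rw [e2, e3]
    exact (h1 j.1 j.2).1
  · have e2 : t = ((j : ℕ) : ℤ) + 1 := e
    have e3 : b = true := e'
    rw [e2, e3]
    exact (h1 j.1 j.2).2
  · have e2 : t = 2 * p - 1 - ((j : ℕ) : ℤ) := e
    have e3 : b = true := e'
    have hj := j.2
    have := (h2 (p - 1 - j.1) (by omega)).1
    have f1 : (⟨p - 1 - (p - 1 - j.1), by omega⟩ : Fin p) = j := by
      apply Fin.ext
      show p - 1 - (p - 1 - j.1) = j.1
      omega
    have f2 : ((p : ℤ) + ((p - 1 - j.1 : ℕ) : ℤ)) = 2 * p - 1 - ((j : ℕ) : ℤ) := by omega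
    rw [e2, e3, ← f2]
    rw [f1] at this
    exact this
  · have e2 : t = 2 * p - ((j : ℕ) : ℤ) := e
    have e3 : b = false := e'
    have e4 : 1 ≤ (j : ℕ) := e''
    have hj := j.2
    have := (h2 (p - 1 - j.1) (by omega)).2 (by omega)
    have f1 : (⟨p - 1 - (p - 1 - j.1), by omega⟩ : Fin p) = j := by
      apply Fin.ext
      show p - 1 - (p - 1 - j.1) = j.1
      omega
    have f2 : ((p : ℤ) + ((p - 1 - j.1 : ℕ) : ℤ) + 1) = 2 * p - ((j : ℕ) : ℤ) := by omega
    rw [e2, e3, ← f2]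
    rw [f1] at this
    exact this

theorem conn_some {p : ℕ} (k : ℤ) (i : Fin p) : Conn (Wg p) (mdl p (k, some i)) := by
  have hp : 0 < p := i.pos
  refine conn_rank _ (fun v => v.1) ?_ ?_ ?_
  · obtain ⟨b, hb⟩ := free p 0 i
    exact ⟨(2 * p * k + 0, i, b), rfl, 0, le_rfl, by omega, rfl, hb⟩
  · rintro ⟨x, j, b⟩ ⟨hj, _⟩ ⟨y, j', b'⟩ ⟨hj', _⟩ hne h
    have e1 : j = i := hj
    have e2 : j' = i := hj'
    subst e1
    subst e2
    refine wg_pair h ?_
    by_contra hcon
    push Not at hcon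
    exact hne (by rw [hcon.1, hcon.2])
  · rintro ⟨x, j, b⟩ ⟨_, t, h0, ht, hx, _⟩ ⟨y, j', b'⟩ ⟨_, t', h0', ht', hy, _⟩ z h1 h2
    have hx' : x = 2 * p * k + t := hx
    have hy' : y = 2 * p * k + t' := hy
    have h1' : x ≤ z := h1
    have h2' : z ≤ y := h2
    obtain ⟨c, hc⟩ := free p (z - 2 * p * k) i
    exact ⟨(z, i, c), ⟨rfl, z - 2 * p * k, by omega, by omega, by
      show z = 2 * p * k + (z - 2 * p * k)
      ring, hc⟩, rfl⟩

/-- **Part A.** -/
theorem starZ_wg {p : ℕ} (hp : 0 < p) : Mn (StarZ (Fin p)) (Wg p) := by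
  have line : ∀ k (o : Option (Fin p)), ∃ a ∈ mdl p (k, o), ∃ b ∈ mdl p (k + 1, o),
      (Wg p).Adj a b := by
    intro k o
    cases o with
    | none =>
      refine ⟨_, mdl_none k (2 * p - 1) ⟨0, hp⟩ true (by omega) (by omega)
        (Or.inr (Or.inr (Or.inl ⟨by simp, rfl⟩))), _,
        mdl_none (k + 1) 0 ⟨0, hp⟩ false le_rfl (by omega) (Or.inl ⟨by simp, rfl⟩), ?_⟩
      refine wg_pair ?_ (Or.inr (by simp))
      have e : 2 * (p : ℤ) * k + (2 * p - 1) - (2 * p * (k + 1) + 0) = -1 := by ring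
      rw [e]
      simp
    | some i =>
      obtain ⟨b, hb⟩ := free p (2 * p - 1) i
      obtain ⟨c, hc⟩ := free p 0 i
      refine ⟨(2 * p * k + (2 * p - 1), i, b), ⟨rfl, 2 * p - 1, by omega, by omega, rfl, hb⟩,
        (2 * p * (k + 1) + 0, i, c), ⟨rfl, 0, le_rfl, by omega, rfl, hc⟩, ?_⟩
      have e : 2 * (p : ℤ) * k + (2 * p - 1) - (2 * p * (k + 1) + 0) = -1 := by ring
      refine wg_pair ?_ (Or.inl ?_)
      · rw [e]
        simp
      · intro h
        rw [h, sub_self] at e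
        omega
  have spoke : ∀ k (i : Fin p), ∃ a ∈ mdl p (k, none), ∃ b ∈ mdl p (k, some i),
      (Wg p).Adj a b := by
    intro k i
    have hi := i.2
    have hc : ¬ cc p ((i : ℕ) : ℤ) (i : ℕ) true := by
      rintro (h | h | h | h)
      · simp at h
      · omega
      · omega
      · simp at h
    exact ⟨_, mdl_none k i i false (by omega) (by omega) (Or.inl ⟨rfl, rfl⟩),
      (2 * p * k + i, i, true), ⟨rfl, i, by omega, by omega, rfl, hc⟩,
      wg_pair (by simp) (Or.inr (by simp))⟩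
  refine ⟨mdl p, ?_, ?_, ?_⟩
  · rintro ⟨k, o⟩
    cases o with
    | none => exact conn_none hp k
    | some i => exact conn_some k i
  · rintro ⟨k, o⟩ ⟨k', o'⟩ ⟨x, j, b⟩ h h'
    cases o with
    | none =>
      obtain ⟨t, h0, h1, hx, hc⟩ := h
      cases o' with
      | none =>
        obtain ⟨t', h0', h1', hx', hc'⟩ := h'
        obtain ⟨e, _⟩ := uniq h0 h1 h0' h1' (hx.symm.trans hx')
        rw [e]
      | some i' =>
        obtain ⟨_, t', h0', h1', hx', hc'⟩ := h'
        obtain ⟨_, e⟩ := uniq h0 h1 h0' h1' (hx.symm.trans hx')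
        exact absurd hc (e ▸ hc')
    | some i =>
      obtain ⟨hi, t, h0, h1, hx, hc⟩ := h
      cases o' with
      | none =>
        obtain ⟨t', h0', h1', hx', hc'⟩ := h'
        obtain ⟨_, e⟩ := uniq h0 h1 h0' h1' (hx.symm.trans hx')
        exact absurd hc' (e ▸ hc)
      | some i' =>
        obtain ⟨hi', t', h0', h1', hx', hc'⟩ := h'
        obtain ⟨e, _⟩ := uniq h0 h1 h0' h1' (hx.symm.trans hx')
        have : i = i' := hi.symm.trans hi'
        rw [e, this]
  · rintro ⟨k, o⟩ ⟨k', o'⟩ hadj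
    unfold StarZ at hadj
    rw [SimpleGraph.fromRel_adj] at hadj
    obtain ⟨hne, (h | h) | (h | h)⟩ := hadj
    · obtain ⟨e1, e2⟩ := h
      have e1' : o = o' := e1
      have e2' : k' = k + 1 := e2
      subst e1'
      subst e2'
      exact line k o
    · obtain ⟨e1, e2⟩ := h
      have e1' : k = k' := e1
      have e2' : o = none := e2
      subst e1'
      subst e2'
      cases o' with
      | none => exact absurd rfl hne
      | some i => exact spoke k i
    · obtain ⟨e1, e2⟩ := h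
      have e1' : o' = o := e1
      have e2' : k = k' + 1 := e2
      subst e1'
      subst e2'
      obtain ⟨a, ha, b, hb, hab⟩ := line k' o'
      exact ⟨b, hb, a, ha, hab.symm⟩
    · obtain ⟨e1, e2⟩ := h
      have e1' : k' = k := e1
      have e2' : o' = none := e2
      subst e1'
      subst e2'
      cases o with
      | none => exact absurd rfl hne
      | some i =>
        obtain ⟨a, ha, b, hb, hab⟩ := spoke k' i
        exact ⟨b, hb, a, ha, hab.symm⟩

/-- Fewer leaves. -/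
theorem starZ_le {q p : ℕ} (h : q ≤ p) : Mn (StarZ (Fin q)) (StarZ (Fin p)) := by
  refine Mn.of_inj (fun v => (v.1, v.2.map (Fin.castLE h))) ?_ ?_
  · rintro ⟨x, o⟩ ⟨y, o'⟩ e
    have e1 : x = y := congrArg Prod.fst e
    have e2 : o.map (Fin.castLE h) = o'.map (Fin.castLE h) := congrArg Prod.snd e
    rw [e1, Option.map_injective (Fin.castLE_injective h) e2]
  · rintro ⟨x, o⟩ ⟨y, o'⟩ hadj
    unfold StarZ at *
    rw [SimpleGraph.fromRel_adj] at *
    obtain ⟨hne, hr⟩ := hadj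
    refine ⟨?_, ?_⟩
    · intro e
      apply hne
      have e1 : x = y := congrArg Prod.fst e
      have e2 : o.map (Fin.castLE h) = o'.map (Fin.castLE h) := congrArg Prod.snd e
      rw [e1, Option.map_injective (Fin.castLE_injective h) e2]
    · rcases hr with (hr | hr) | (hr | hr)
      · left; left
        obtain ⟨e1, e2⟩ := hr
        have e1' : o = o' := e1
        exact ⟨by rw [e1'], e2⟩
      · left; right
        obtain ⟨e1, e2⟩ := hr
        have e2' : o = none := e2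
        exact ⟨e1, by rw [e2']; rfl⟩
      · right; left
        obtain ⟨e1, e2⟩ := hr
        have e1' : o' = o := e1
        exact ⟨by rw [e1'], e2⟩
      · right; right
        obtain ⟨e1, e2⟩ := hr
        have e2' : o' = none := e2
        exact ⟨e1, by rw [e2']; rfl⟩

end Pool.Agent.Helper4.NW
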